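import Pool.Agent.H59.UV.Stm

set_option autoImplicit false

namespace Pool.Agent.H17.UV

open Pool.Agent.H59.UV

lemma cen_aux (j : ℕ) : ∀ e : ℕ, e ≤ j → 3 ^ e * j.centralBinom ≤ 2 ^ e * (2 * j + e).choose j := by
  intro e
  induction e with
  | zero => intro _; simp [Nat.centralBinom]
  | succ e ih =>
    intro he
    have h := ih (by omega)
    -- C(2j+e+1, j) * (j+e+1) = C(2j+e, j) * (2j+e+1)
    have key : (2 * j + e + 1).choose j * (j + e + 1) = (2 * j + e).choose j * (2 * j + e + 1) := by
      have := Nat.choose_mul_succ_eq (2 * j + e) j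
      have h2 : 2 * j + e + 1 - j = j + e + 1 := by omega
      rw [h2] at this
      exact this.symm
    have h3 : 3 * (2 * j + e).choose j ≤ 2 * (2 * j + e + 1).choose j := by
      have h4 : (3 * (2 * j + e).choose j) * (j + e + 1) ≤ (2 * (2 * j + e + 1).choose j) * (j + e + 1) := by
        calc (3 * (2 * j + e).choose j) * (j + e + 1)
            = (2 * j + e).choose j * (3 * (j + e + 1)) := by ring
          _ ≤ (2 * j + e).choose j * (2 * (2 * j + e + 1)) := by
              apply Nat.mul_le_mul_left; omega
          _ = 2 * ((2 * j + e).choose j * (2 * j + e + 1)) := by ring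
          _ = 2 * ((2 * j + e + 1).choose j * (j + e + 1)) := by rw [key]
          _ = _ := by ring
      exact Nat.le_of_mul_le_mul_right h4 (by omega)
    calc 3 ^ (e + 1) * j.centralBinom = 3 * (3 ^ e * j.centralBinom) := by ring
      _ ≤ 3 * (2 ^ e * (2 * j + e).choose j) := Nat.mul_le_mul_left _ h
      _ = 2 ^ e * (3 * (2 * j + e).choose j) := by ring
      _ ≤ 2 ^ e * (2 * (2 * j + e + 1).choose j) := Nat.mul_le_mul_left _ h3
      _ = 2 ^ (e + 1) * (2 * j + (e + 1)).choose j := by
        rw [show 2 * j + (e + 1) = 2 * j + e + 1 from by ring]; ring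

theorem t_CEN : S_CEN := by
  intro j e n he hn
  refine (cen_aux j e he).trans ?_
  exact Nat.mul_le_mul_left _ (Nat.choose_le_choose j hn)

theorem t_RAT : S_RAT := by
  intro k m b hkm
  induction b with
  | zero => simp
  | succ b ih =>
    have h1 : k.choose (b + 1) * (b + 1) = k.choose b * (k - b) := Nat.choose_succ_right_eq k b
    have h2 : m.choose (b + 1) * (b + 1) = m.choose b * (m - b) := Nat.choose_succ_right_eq m b
    have h3 : (k - b) * m ≤ (m - b) * k := by
      rcases le_total k b with h | h
      · simp [Nat.sub_eq_zero_of_le h]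
      · obtain ⟨x, rfl⟩ := Nat.exists_eq_add_of_le h
        obtain ⟨y, rfl⟩ := Nat.exists_eq_add_of_le hkm
        rw [show b + x - b = x by omega, show b + x + y - b = x + y by omega]
        nlinarith [Nat.zero_le (b * y)]
    have h4 : (k.choose (b + 1) * m ^ (b + 1)) * (b + 1) ≤ (m.choose (b + 1) * k ^ (b + 1)) * (b + 1) := by
      calc (k.choose (b + 1) * m ^ (b + 1)) * (b + 1)
          = (k.choose (b + 1) * (b + 1)) * m ^ (b + 1) := by ring
        _ = (k.choose b * (k - b)) * m ^ (b + 1) := by rw [h1]
        _ = (k.choose b * m ^ b) * ((k - b) * m) := by ring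
        _ ≤ (m.choose b * k ^ b) * ((m - b) * k) := Nat.mul_le_mul ih h3
        _ = (m.choose b * (m - b)) * k ^ (b + 1) := by ring
        _ = (m.choose (b + 1) * (b + 1)) * k ^ (b + 1) := by rw [h2]
        _ = _ := by ring
    exact Nat.le_of_mul_le_mul_right h4 (by omega)

end Pool.Agent.H17.UV
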