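import Pool.Agent.H59.UV.Stm

set_option autoImplicit false

namespace Pool.Agent.H17.UV

open Pool.Agent.H59.UV Finset

lemma com_nat (hC : S_CEN) (hR : S_RAT) (m k b e : ℕ) (hb : b ≤ k) (hk : k ≤ m)
    (he1 : e ≤ k - b) (he2 : 2 * (k - b) + e ≤ m - b) :
    3 ^ e * (k - b).centralBinom * m ^ b ≤ 2 ^ e * k ^ b * m.choose k := by
  have h1 : 3 ^ e * (k - b).centralBinom ≤ 2 ^ e * (m - b).choose (k - b) :=
    hC (k - b) e (m - b) he1 he2
  have h2 : m.choose k * k.choose b = m.choose b * (m - b).choose (k - b) := Nat.choose_mul hb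
  have h3 : k.choose b * m ^ b ≤ m.choose b * k ^ b := hR k m b hk
  have hpos : 0 < m.choose b := Nat.choose_pos (hb.trans hk)
  have h4 : (m - b).choose (k - b) * m ^ b ≤ m.choose k * k ^ b := by
    have : m.choose b * ((m - b).choose (k - b) * m ^ b) ≤ m.choose b * (m.choose k * k ^ b) := by
      calc m.choose b * ((m - b).choose (k - b) * m ^ b)
          = (m.choose b * (m - b).choose (k - b)) * m ^ b := by ring
        _ = m.choose k * (k.choose b * m ^ b) := by rw [← h2]; ring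
        _ ≤ m.choose k * (m.choose b * k ^ b) := Nat.mul_le_mul_left _ h3
        _ = _ := by ring
    exact Nat.le_of_mul_le_mul_left this hpos
  calc 3 ^ e * (k - b).centralBinom * m ^ b ≤ 2 ^ e * (m - b).choose (k - b) * m ^ b :=
        Nat.mul_le_mul_right _ h1
    _ = 2 ^ e * ((m - b).choose (k - b) * m ^ b) := by ring
    _ ≤ 2 ^ e * (m.choose k * k ^ b) := Nat.mul_le_mul_left _ h4
    _ = _ := by ring

lemma com (hC : S_CEN) (hR : S_RAT) (m k b e : ℕ) (hb : b ≤ k) (hk : k ≤ m) (hm : 0 < m)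
    (he1 : e ≤ k - b) (he2 : 2 * (k - b) + e ≤ m - b) :
    ((k - b).centralBinom : ℝ) ≤ (2 / 3) ^ e * ((k : ℝ) / m) ^ b * m.choose k := by
  have h := com_nat hC hR m k b e hb hk he1 he2
  have h' : (3 : ℝ) ^ e * ((k - b).centralBinom : ℝ) * (m : ℝ) ^ b ≤
      2 ^ e * (k : ℝ) ^ b * (m.choose k : ℝ) := by exact_mod_cast h
  have hm' : (0 : ℝ) < m := by exact_mod_cast hm
  rw [div_pow, div_pow]
  rw [show (2 : ℝ) ^ e / 3 ^ e * ((k : ℝ) ^ b / (m : ℝ) ^ b) * (m.choose k : ℝ) =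
    (2 ^ e * (k : ℝ) ^ b * (m.choose k : ℝ)) / (3 ^ e * (m : ℝ) ^ b) by field_simp]
  rw [le_div_iff₀ (by positivity)]
  calc ((k - b).centralBinom : ℝ) * (3 ^ e * (m : ℝ) ^ b)
      = (3 : ℝ) ^ e * ((k - b).centralBinom : ℝ) * (m : ℝ) ^ b := by ring
    _ ≤ _ := h'

/-- partial binomial sums -/
lemma binsum (c k : ℕ) (x : ℝ) (hx : 0 ≤ x) :
    ∑ b ∈ Icc 1 k, (c.choose b : ℝ) * x ^ b ≤ (1 + x) ^ c := by
  have h1 : (1 + x) ^ c = ∑ b ∈ range (c + 1), (c.choose b : ℝ) * x ^ b := by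
    rw [add_comm, add_pow]
    apply Finset.sum_congr rfl
    intro b _
    simp; ring
  rw [h1]
  have h2 : ∑ b ∈ Icc 1 k, (c.choose b : ℝ) * x ^ b =
      ∑ b ∈ (Icc 1 k).filter (fun b => b < c + 1), (c.choose b : ℝ) * x ^ b := by
    rw [Finset.sum_filter]
    apply Finset.sum_congr rfl
    intro b _
    split_ifs with hb
    · rfl
    · rw [Nat.choose_eq_zero_of_lt (by omega)]; simp
  rw [h2]
  apply Finset.sum_le_sum_of_subset_of_nonneg
  · intro b hb
    simp only [Finset.mem_filter] at hb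
    exact Finset.mem_range.mpr hb.2
  · intro b _ _
    positivity

lemma caseA (hC : S_CEN) (hR : S_RAT) (m c k : ℕ) (h6 : 6 * c ≤ m) (hm : 8 ≤ m) (h4 : 4 * k < m) :
    (k + 1 : ℝ) * ∑ b ∈ Icc 1 k, (c.choose b : ℝ) * ((k - b).centralBinom : ℝ) ≤
      ((m - 2 * k - 1 : ℕ) : ℝ) * m.choose k := by
  rcases Nat.eq_zero_or_pos k with rfl | hk
  · simp
  have hm' : (0 : ℝ) < m := by exact_mod_cast (by omega : 0 < m)
  have hk1 : ((k : ℝ) + 1) ≤ ((m - 2 * k - 1 : ℕ) : ℝ) := by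
    have : k + 1 ≤ m - 2 * k - 1 := by omega
    exact_mod_cast this
  have hS : ∑ b ∈ Icc 1 k, (c.choose b : ℝ) * ((k - b).centralBinom : ℝ) ≤ m.choose k := by
    have hterm : ∀ b ∈ Icc 1 k, (c.choose b : ℝ) * ((k - b).centralBinom : ℝ) ≤
        ((2 / 3 : ℝ) ^ k * m.choose k) * ((c.choose b : ℝ) * (3 * k / (2 * m) : ℝ) ^ b) := by
      intro b hb
      rw [Finset.mem_Icc] at hb
      have h1 := com hC hR m k b (k - b) hb.2 (by omega) (by omega) le_rfl (by omega)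
      have h2 : ((2 / 3 : ℝ) ^ (k - b)) * ((k : ℝ) / m) ^ b =
          (2 / 3 : ℝ) ^ k * (3 * k / (2 * m) : ℝ) ^ b := by
        have h3 : (2 / 3 : ℝ) ^ k = (2 / 3 : ℝ) ^ (k - b) * (2 / 3 : ℝ) ^ b := by
          rw [← pow_add]; congr 1; omega
        rw [h3, mul_assoc, ← mul_pow]
        congr 2
        field_simp
      calc (c.choose b : ℝ) * ((k - b).centralBinom : ℝ)
          ≤ (c.choose b : ℝ) * ((2 / 3 : ℝ) ^ (k - b) * ((k : ℝ) / m) ^ b * m.choose k) :=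
            mul_le_mul_of_nonneg_left h1 (by positivity)
        _ = _ := by rw [h2]; ring
    refine (Finset.sum_le_sum hterm).trans ?_
    rw [← Finset.mul_sum]
    have hb := binsum c k (3 * k / (2 * m) : ℝ) (by positivity)
    have h5 : (1 + 3 * k / (2 * m) : ℝ) ^ c ≤ (3 / 2 : ℝ) ^ k := by
      have e1 : (1 + 3 * k / (2 * m) : ℝ) ≤ Real.exp (3 * k / (2 * m)) := by
        have := Real.add_one_le_exp (3 * k / (2 * m) : ℝ); linarith
      have e2 : (1 + 3 * k / (2 * m) : ℝ) ^ c ≤ Real.exp (3 * k / (2 * m)) ^ c :=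
        pow_le_pow_left₀ (by positivity) e1 c
      have e3 : Real.exp (3 * k / (2 * m)) ^ c ≤ Real.exp (1 / 4) ^ k := by
        rw [← Real.exp_nat_mul, ← Real.exp_nat_mul]
        apply Real.exp_le_exp.mpr
        rw [show (c : ℝ) * (3 * k / (2 * m)) = (3 * k * c) / (2 * m) by ring]
        rw [div_le_iff₀ (by positivity)]
        have : (6 * c : ℝ) ≤ m := by exact_mod_cast h6
        have hk0 : (0 : ℝ) ≤ k := by positivity
        nlinarith
      have e4 : Real.exp (1 / 4) ≤ 3 / 2 := by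
        have h := Real.exp_one_lt_d9
        have h8 : Real.exp (1 / 4) ^ 4 = Real.exp 1 := by
          rw [← Real.exp_nat_mul]; norm_num
        by_contra hcon
        push Not at hcon
        have : (3 / 2 : ℝ) ^ 4 < Real.exp (1 / 4) ^ 4 := pow_lt_pow_left₀ hcon (by norm_num) (by norm_num)
        rw [h8] at this
        norm_num at this
        linarith
      exact e2.trans (e3.trans (pow_le_pow_left₀ (Real.exp_pos _).le e4 k))
    calc (2 / 3 : ℝ) ^ k * m.choose k * ∑ b ∈ Icc 1 k, (c.choose b : ℝ) * (3 * k / (2 * m) : ℝ) ^ b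
        ≤ (2 / 3 : ℝ) ^ k * m.choose k * (3 / 2 : ℝ) ^ k :=
          mul_le_mul_of_nonneg_left (hb.trans h5) (by positivity)
      _ = ((2 / 3 : ℝ) * (3 / 2)) ^ k * m.choose k := by rw [mul_pow]; ring
      _ = m.choose k := by norm_num
  exact mul_le_mul hk1 hS (by positivity) (by positivity)

lemma caseB (hC : S_CEN) (hR : S_RAT) (m c D k : ℕ) (h8 : 8 * D + 4 * c + 8 ≤ m)
    (hD : (m + 1) * 2 ^ c ≤ 2 ^ D) (hk : 2 * k + 1 + 2 * D ≤ m) (h4 : m ≤ 4 * k) :
    (k + 1 : ℝ) * ∑ b ∈ Icc 1 k, (c.choose b : ℝ) * ((k - b).centralBinom : ℝ) ≤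
      ((m - 2 * k - 1 : ℕ) : ℝ) * m.choose k := by
  have hm' : (0 : ℝ) < m := by exact_mod_cast (by omega : 0 < m)
  have hDpos : 1 ≤ D := by
    rcases Nat.eq_zero_or_pos D with rfl | h
    · have : 1 ≤ 2 ^ c := Nat.one_le_two_pow
      nlinarith
    · exact h
  have hS : ∑ b ∈ Icc 1 k, (c.choose b : ℝ) * ((k - b).centralBinom : ℝ) ≤
      ((2 / 3 : ℝ) ^ (2 * D) * m.choose k) * (3 / 2 : ℝ) ^ c := by
    have hterm : ∀ b ∈ Icc 1 k, (c.choose b : ℝ) * ((k - b).centralBinom : ℝ) ≤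
        ((2 / 3 : ℝ) ^ (2 * D) * m.choose k) * ((c.choose b : ℝ) * (1 / 2 : ℝ) ^ b) := by
      intro b hb
      rw [Finset.mem_Icc] at hb
      rcases Nat.lt_or_ge c b with hcb | hcb
      · rw [Nat.choose_eq_zero_of_lt hcb]; simp
      have h1 := com hC hR m k b (2 * D) hb.2 (by omega) (by omega) (by omega) (by omega)
      have h2 : ((k : ℝ) / m) ^ b ≤ (1 / 2 : ℝ) ^ b := by
        apply pow_le_pow_left₀ (by positivity)
        rw [div_le_iff₀ hm']
        have : ((2 * k : ℕ) : ℝ) ≤ m := by exact_mod_cast (by omega : 2 * k ≤ m)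
        push_cast at this
        linarith
      calc (c.choose b : ℝ) * ((k - b).centralBinom : ℝ)
          ≤ (c.choose b : ℝ) * ((2 / 3 : ℝ) ^ (2 * D) * ((k : ℝ) / m) ^ b * m.choose k) :=
            mul_le_mul_of_nonneg_left h1 (by positivity)
        _ ≤ (c.choose b : ℝ) * ((2 / 3 : ℝ) ^ (2 * D) * (1 / 2 : ℝ) ^ b * m.choose k) := by
            gcongr
        _ = _ := by ring
    refine (Finset.sum_le_sum hterm).trans ?_
    rw [← Finset.mul_sum]
    have hb := binsum c k (1 / 2 : ℝ) (by positivity)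
    apply mul_le_mul_of_nonneg_left _ (by positivity)
    refine hb.trans (le_of_eq ?_)
    norm_num
  have hkey : (k + 1 : ℝ) * ((2 / 3 : ℝ) ^ (2 * D) * (3 / 2 : ℝ) ^ c) ≤ 1 := by
    have g1 : ((m : ℝ) + 1) * 2 ^ c ≤ 2 ^ D := by exact_mod_cast hD
    have g2 : (k + 1 : ℝ) * (3 / 2 : ℝ) ^ c ≤ 2 ^ D := by
      refine le_trans ?_ g1
      have g3 : (k : ℝ) ≤ m := by exact_mod_cast (by omega : k ≤ m)
      gcongr
      norm_num
    calc (k + 1 : ℝ) * ((2 / 3 : ℝ) ^ (2 * D) * (3 / 2 : ℝ) ^ c)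
        = ((k + 1 : ℝ) * (3 / 2 : ℝ) ^ c) * (2 / 3 : ℝ) ^ (2 * D) := by ring
      _ ≤ 2 ^ D * (2 / 3 : ℝ) ^ (2 * D) := mul_le_mul_of_nonneg_right g2 (by positivity)
      _ = (2 * (4 / 9) : ℝ) ^ D := by rw [pow_mul, mul_pow]; norm_num
      _ ≤ 1 := pow_le_one₀ (by norm_num) (by norm_num)
  have hone : (1 : ℝ) ≤ ((m - 2 * k - 1 : ℕ) : ℝ) := by
    exact_mod_cast (by omega : 1 ≤ m - 2 * k - 1)
  calc (k + 1 : ℝ) * ∑ b ∈ Icc 1 k, (c.choose b : ℝ) * ((k - b).centralBinom : ℝ)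
      ≤ (k + 1 : ℝ) * (((2 / 3 : ℝ) ^ (2 * D) * m.choose k) * (3 / 2 : ℝ) ^ c) :=
        mul_le_mul_of_nonneg_left hS (by positivity)
    _ = ((k + 1 : ℝ) * ((2 / 3 : ℝ) ^ (2 * D) * (3 / 2 : ℝ) ^ c)) * m.choose k := by ring
    _ ≤ 1 * m.choose k := mul_le_mul_of_nonneg_right hkey (by positivity)
    _ ≤ ((m - 2 * k - 1 : ℕ) : ℝ) * m.choose k := mul_le_mul_of_nonneg_right hone (by positivity)

theorem t_LEFT (hC : S_CEN) (hR : S_RAT) : S_LEFT := by
  intro m c D k h6 h8 hD hk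
  have : ((k + 1 : ℕ) : ℝ) * ((∑ b ∈ Icc 1 k, c.choose b * (k - b).centralBinom : ℕ) : ℝ) ≤
      ((m - 2 * k - 1 : ℕ) : ℝ) * (m.choose k : ℝ) := by
    push_cast
    rcases Nat.lt_or_ge (4 * k) m with h | h
    · exact caseA hC hR m c k h6 (by omega) h
    · exact caseB hC hR m c D k h8 hD hk h
  exact_mod_cast this

end Pool.Agent.H17.UV
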